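import Pool.Agent.Q227.SC.Math
import Pool.Agent.H601R2.PCG.Alg
import Pool.Agent.H679R2.Oct.Mem

/-!
# Split clique graphs with a bounded stable side: the algorithm
-/

set_option autoImplicit false

namespace Pool.Agent.Q227.SC

open Pool.Agent.NPC Pool.Agent.H601R2.PCG

/-- `G` is a split graph: its vertices are partitioned into a stable set `S` with at most `k`
elements and a complete set. -/
def SplitWith {V : Type} (k : ℕ) (G : SimpleGraph V) : Prop :=
  ∃ S : Set V, S.ncard ≤ k ∧ (∀ x ∈ S, ∀ y ∈ S, ¬ G.Adj x y) ∧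
    ∀ x, x ∉ S → ∀ y, y ∉ S → x ≠ y → G.Adj x y

/-- The number of vertices outside `t` of a given type. -/
def cntB (m : List (List Bool)) (t : List ℕ) (A : List Bool) : ℕ :=
  ((verts m).filter fun x => !decide (x ∈ t) && decide ((t.map fun s => adjB m x s) = A)).length

/-- The test whether `t` enumerates the stable side of a split partition. -/
def okB (m : List (List Bool)) (t : List ℕ) : Bool :=
  H679.ndb t && ((t.all fun x => t.all fun y => !adjB m x y) &&
    (verts m).all fun x => (verts m).all fun y =>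
      decide (x ∈ t) || (decide (y ∈ t) || (decide (x = y) || adjB m x y)))

/-- The comparison of the multiplicities with a list of vectors. -/
def cmpB (B : List (List (List Bool × ℕ))) (m : List (List Bool)) (t : List ℕ) : Bool :=
  B.any fun b => b.all fun p => decide (p.2 ≤ cntB m t p.1) &&
    decide (decide (p.2 = 0) = decide (cntB m t p.1 = 0))

/-- The algorithm for stable sides with exactly `j` vertices. -/
def algJ (B : List (List (List Bool × ℕ))) (j : ℕ) (m : List (List Bool)) : Bool :=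
  (lists j (verts m)).any fun t => okB m t && cmpB B m t

/-- The algorithm for stable sides with at most `k` vertices. -/
def alg (B : ℕ → List (List (List Bool × ℕ))) : ℕ → List (List Bool) → Bool
  | 0, m => algJ (B 0) 0 m
  | k + 1, m => alg B k m || algJ (B (k + 1)) (k + 1) m

theorem cntB_poly : NPC.Poly (fun p : (List (List Bool) × List ℕ) × List Bool =>
    cntB p.1.1 p.1.2 p.2) := by
  unfold cntB
  fun_prop

theorem okB_poly : NPC.Poly (fun p : List (List Bool) × List ℕ => okB p.1 p.2) := by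
  have h1 : NPC.Poly (fun p : List (List Bool) × List ℕ => H679.ndb p.2) :=
    H679.ndb_poly (NPC.Poly.snd NPC.Poly.id)
  unfold okB
  refine NPC.Poly.and h1 ?_
  fun_prop

theorem cmpB_poly (B : List (List (List Bool × ℕ))) :
    NPC.Poly (fun p : List (List Bool) × List ℕ => cmpB B p.1 p.2) := by
  unfold cmpB
  refine NPC.Poly.any (p := fun (x : List (List Bool) × List ℕ) (b : List (List Bool × ℕ)) =>
    b.all fun p => decide (p.2 ≤ cntB x.1 x.2 p.1) &&
      decide (decide (p.2 = 0) = decide (cntB x.1 x.2 p.1 = 0))) (NPC.Poly.const _) ?_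
  refine NPC.Poly.all (l := fun y : (List (List Bool) × List ℕ) × List (List Bool × ℕ) => y.2)
    (p := fun (y : (List (List Bool) × List ℕ) × List (List Bool × ℕ)) (p : List Bool × ℕ) =>
    decide (p.2 ≤ cntB y.1.1 y.1.2 p.1) &&
      decide (decide (p.2 = 0) = decide (cntB y.1.1 y.1.2 p.1 = 0))) (NPC.Poly.snd NPC.Poly.id) ?_
  have hc : NPC.Poly (fun z : ((List (List Bool) × List ℕ) × List (List Bool × ℕ)) ×
      (List Bool × ℕ) => cntB z.1.1.1 z.1.1.2 z.2.1) :=
    cntB_poly.comp (f := fun z : ((List (List Bool) × List ℕ) × List (List Bool × ℕ)) ×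
      (List Bool × ℕ) => ((z.1.1.1, z.1.1.2), z.2.1)) (by fun_prop)
  have hb : NPC.Poly (fun z : ((List (List Bool) × List ℕ) × List (List Bool × ℕ)) ×
      (List Bool × ℕ) => z.2.2) := by fun_prop
  exact NPC.Poly.and (NPC.Poly.decide_le hb hc) (NPC.Poly.decide_eq
    (NPC.Poly.decide_eq hb (NPC.Poly.const 0)) (NPC.Poly.decide_eq hc (NPC.Poly.const 0)))

theorem algJ_poly (B : List (List (List Bool × ℕ))) (j : ℕ) : NPC.Poly (algJ B j) := by
  refine NPC.Poly.any (l := fun m => lists j (verts m)) (p := fun m t => okB m t && cmpB B m t)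
    (by fun_prop) (NPC.Poly.and okB_poly (cmpB_poly B))

theorem alg_poly (B : ℕ → List (List (List Bool × ℕ))) (k : ℕ) : NPC.Poly (alg B k) := by
  induction k with
  | zero => exact algJ_poly (B 0) 0
  | succ k ih => exact NPC.Poly.or ih (algJ_poly (B (k + 1)) (k + 1))

theorem alg_iff (B : ℕ → List (List (List Bool × ℕ))) (k : ℕ) (m : List (List Bool)) :
    alg B k m = true ↔ ∃ j, j ≤ k ∧ algJ (B j) j m = true := by
  induction k with
  | zero => simp [alg]
  | succ k ih =>
    simp only [alg, Bool.or_eq_true, ih]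
    constructor
    · rintro (⟨j, h1, h2⟩ | h)
      · exact ⟨j, by omega, h2⟩
      · exact ⟨k + 1, le_rfl, h⟩
    · rintro ⟨j, h1, h2⟩
      rcases Nat.lt_or_ge k j with h | h
      · obtain rfl : j = k + 1 := by omega
        exact Or.inr h2
      · exact Or.inl ⟨j, h, h2⟩

section

variable {n : ℕ} (G : SimpleGraph (Fin n))

/-- The enumeration of the stable side. -/
def sOf {j : ℕ} (t : List ℕ) (h1 : t.length = j) (h2 : ∀ x ∈ t, x < n) (i : Fin j) : Fin n :=
  ⟨t[i.val]'(by rw [h1]; exact i.isLt), h2 _ (List.getElem_mem _)⟩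

theorem mem_range_sOf {j : ℕ} {t : List ℕ} (h1 : t.length = j) (h2 : ∀ x ∈ t, x < n)
    (x : Fin n) : x ∈ Set.range (sOf t h1 h2) ↔ (x : ℕ) ∈ t := by
  constructor
  · rintro ⟨i, rfl⟩
    exact List.getElem_mem _
  · intro hx
    obtain ⟨i, hi, h⟩ := List.getElem_of_mem hx
    exact ⟨⟨i, h1 ▸ hi⟩, Fin.ext h⟩

theorem okB_iff {j : ℕ} {t : List ℕ} (h1 : t.length = j) (h2 : ∀ x ∈ t, x < n) :
    okB (R671.adjMatrix G) t = true ↔ Sp G (sOf t h1 h2) := by
  have hlt : ∀ i : Fin j, (sOf t h1 h2 i).val ∈ t := fun i => List.getElem_mem _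
  unfold okB
  simp only [Bool.and_eq_true, H679.ndb_iff, List.all_eq_true, Bool.or_eq_true,
    decide_eq_true_eq, Bool.not_eq_true', mem_verts]
  constructor
  · rintro ⟨h3, h4, h5⟩
    refine ⟨?_, ?_, ?_⟩
    · intro i i' h
      have : t[i.val]'(by rw [h1]; exact i.isLt) = t[i'.val]'(by rw [h1]; exact i'.isLt) :=
        congrArg Fin.val h
      exact Fin.ext ((List.Nodup.getElem_inj_iff h3).1 this)
    · intro i i' h
      have := h4 _ (hlt i) _ (hlt i')
      rw [← adjB_iff] at h
      rw [h] at this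
      exact Bool.noConfusion this
    · intro x y hx hy hxy
      rw [mem_range_sOf] at hx hy
      rcases h5 x x.isLt y y.isLt with h | h | h | h
      · exact absurd h hx
      · exact absurd h hy
      · exact absurd (Fin.ext h) hxy
      · exact (adjB_iff G x y).1 h
  · rintro ⟨h3, h4, h5⟩
    refine ⟨?_, ?_, ?_⟩
    · rw [List.nodup_iff_injective_get]
      intro a b hab
      have := @h3 ⟨a.val, h1 ▸ a.isLt⟩ ⟨b.val, h1 ▸ b.isLt⟩ (Fin.ext hab)
      exact Fin.ext (Fin.mk.inj this)
    · intro x hx y hy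
      obtain ⟨i, hi⟩ := (mem_range_sOf h1 h2 ⟨x, h2 x hx⟩).2 hx
      obtain ⟨i', hi'⟩ := (mem_range_sOf h1 h2 ⟨y, h2 y hy⟩).2 hy
      have := h4 i i'
      rw [hi, hi', ← adjB_iff] at this
      simpa using this
    · intro x hx y hy
      by_cases h6 : x ∈ t
      · exact Or.inl h6
      by_cases h7 : y ∈ t
      · exact Or.inr (Or.inl h7)
      by_cases h8 : x = y
      · exact Or.inr (Or.inr (Or.inl h8))
      · refine Or.inr (Or.inr (Or.inr ?_))
        have := h5 ⟨x, hx⟩ ⟨y, hy⟩ (by rw [mem_range_sOf]; exact h6)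
          (by rw [mem_range_sOf]; exact h7) (fun h => h8 (congrArg Fin.val h))
        exact (adjB_iff G ⟨x, hx⟩ ⟨y, hy⟩).2 this

theorem cntB_eq {j : ℕ} {t : List ℕ} (h1 : t.length = j) (h2 : ∀ x ∈ t, x < n)
    (A : List.Vector Bool j) : cntB (R671.adjMatrix G) t A.toList = cnt G (sOf t h1 h2) A := by
  classical
  have hty : ∀ x : Fin n, ((t.map fun s => adjB (R671.adjMatrix G) x s) = A.toList ↔
      ty G (sOf t h1 h2) x = A) := by
    intro x
    have h3 : (t.map fun s => adjB (R671.adjMatrix G) x s) = (ty G (sOf t h1 h2) x).toList := by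
      apply List.ext_getElem
      · simp [h1]
      · intro i hi hi'
        rw [List.getElem_map]
        have hij : i < j := by simpa [h1] using hi
        have h4 : (ty G (sOf t h1 h2) x).toList[i] = (ty G (sOf t h1 h2) x).get ⟨i, hij⟩ := by
          rw [List.Vector.get_eq_get_toList]
          rfl
        rw [h4, Bool.eq_iff_iff, ty_get]
        exact adjB_iff G x (sOf t h1 h2 ⟨i, hij⟩)
    rw [h3]
    exact ⟨fun h => List.Vector.toList_injective h, fun h => by rw [h]⟩
  unfold cntB cnt
  have h3 : (((verts (R671.adjMatrix G)).filter fun x => !decide (x ∈ t) &&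
      decide ((t.map fun s => adjB (R671.adjMatrix G) x s) = A.toList)).toFinset : Set ℕ) =
      Fin.val '' (cls G (sOf t h1 h2) A) := by
    ext x
    simp only [List.coe_toFinset, List.mem_filter, mem_verts, Bool.and_eq_true,
      Bool.not_eq_true', decide_eq_false_iff_not, decide_eq_true_eq, Set.mem_ofPred_eq,
      Set.mem_image]
    constructor
    · rintro ⟨h4, h5, h6⟩
      refine ⟨⟨x, h4⟩, ⟨?_, ?_⟩, rfl⟩
      · rw [mem_range_sOf]; exact h5
      · rw [← hty]; exact h6
    · rintro ⟨y, ⟨h4, h5⟩, rfl⟩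
      rw [mem_range_sOf] at h4
      rw [← hty] at h5
      exact ⟨y.isLt, h4, h5⟩
  have h4 := congrArg Set.ncard h3
  rw [Set.ncard_coe_finset, List.toFinset_card_of_nodup
    (List.Nodup.filter _ (by unfold verts; exact List.nodup_range)),
    Set.ncard_image_of_injective _ Fin.val_injective] at h4
  exact h4

end

/-- The constants of the algorithm. -/
theorem exists_consts : ∃ B : ℕ → List (List (List Bool × ℕ)), ∀ (k n : ℕ)
    (G : SimpleGraph (Fin n)), 0 < n → (alg B k (R671.adjMatrix G) = true ↔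
      SplitWith k G ∧ IsCliqueGraph G) := by
  choose B hB using basis
  refine ⟨fun j => (B j).map fun b => (Finset.univ : Finset (List.Vector Bool j)).toList.map
    fun A => (A.toList, b A), fun k n G hn => ?_⟩
  have hne : Nonempty (Fin n) := ⟨⟨0, hn⟩⟩
  have hcmp : ∀ {j : ℕ} {t : List ℕ} (h1 : t.length = j) (h2 : ∀ x ∈ t, x < n),
      (cmpB ((B j).map fun b => (Finset.univ : Finset (List.Vector Bool j)).toList.map
        fun A => (A.toList, b A)) (R671.adjMatrix G) t = true ↔
      ∃ b ∈ B j, ∀ A, b A ≤ cnt G (sOf t h1 h2) A ∧ (b A = 0 ↔ cnt G (sOf t h1 h2) A = 0)) := by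
    intro j t h1 h2
    unfold cmpB
    simp only [List.any_eq_true, List.mem_map, exists_exists_and_eq_and, List.all_eq_true,
      Finset.mem_toList, Finset.mem_univ, true_and, forall_exists_index,
      forall_apply_eq_imp_iff, Bool.and_eq_true, decide_eq_true_eq, cntB_eq G h1 h2,
      decide_eq_decide]
  rw [alg_iff]
  constructor
  · rintro ⟨j, hj, h⟩
    unfold algJ at h
    rw [List.any_eq_true] at h
    obtain ⟨t, ht, h⟩ := h
    rw [mem_lists] at ht
    obtain ⟨h1, h2⟩ := ht
    have h2' : ∀ x ∈ t, x < n := fun x hx => (mem_verts G).1 (h2 x hx)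
    rw [Bool.and_eq_true, okB_iff G h1 h2', hcmp h1 h2'] at h
    refine ⟨⟨Set.range (sOf t h1 h2'), ?_, ?_, ?_⟩, (hB j _ G _ h.1 hne).2 h.2⟩
    · rw [← Set.image_univ]
      refine (Set.ncard_image_le (Set.toFinite _)).trans ?_
      rw [Set.ncard_univ, Nat.card_eq_fintype_card, Fintype.card_fin]
      exact hj
    · rintro _ ⟨i, rfl⟩ _ ⟨i', rfl⟩
      exact h.1.stable i i'
    · intro x hx y hy
      exact h.1.clique x y hx hy
  · rintro ⟨⟨S, h1, h2, h3⟩, h4⟩
    refine ⟨S.ncard, h1, ?_⟩
    have hfin : S.Finite := Set.toFinite S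
    have hcard : hfin.toFinset.card = S.ncard := by
      rw [Set.ncard_eq_toFinset_card S hfin]
    set e := hfin.toFinset.orderIsoOfFin hcard with he
    set t : List ℕ := List.ofFn (fun i => ((e i : Fin n) : ℕ)) with ht
    have h5 : t.length = S.ncard := by rw [ht, List.length_ofFn]
    have h6 : ∀ x ∈ t, x < n := by
      intro x hx
      rw [ht, List.mem_ofFn] at hx
      obtain ⟨i, rfl⟩ := hx
      exact (e i : Fin n).isLt
    have h7 : ∀ i, sOf t h5 h6 i = (e i : Fin n) := by
      intro i
      apply Fin.ext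
      simp [sOf, ht]
    have h8 : Set.range (sOf t h5 h6) = S := by
      ext x
      constructor
      · rintro ⟨i, rfl⟩
        rw [h7]
        exact hfin.mem_toFinset.1 (e i).2
      · intro hx
        exact ⟨e.symm ⟨x, hfin.mem_toFinset.2 hx⟩, by rw [h7, OrderIso.apply_symm_apply]⟩
    have hsp : Sp G (sOf t h5 h6) := by
      refine ⟨?_, ?_, ?_⟩
      · intro i i' h
        rw [h7, h7] at h
        exact e.injective (Subtype.ext h)
      · intro i i'
        have h9 : ∀ i, sOf t h5 h6 i ∈ S := fun i => by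
          rw [h7]; exact hfin.mem_toFinset.1 (e i).2
        exact h2 _ (h9 i) _ (h9 i')
      · rw [h8]
        exact fun x y hx hy => h3 x hx y hy
    unfold algJ
    rw [List.any_eq_true]
    refine ⟨t, mem_lists.2 ⟨h5, fun x hx => (mem_verts G).2 (h6 x hx)⟩, ?_⟩
    rw [Bool.and_eq_true, okB_iff G h5 h6, hcmp h5 h6]
    exact ⟨hsp, (hB _ _ G _ hsp hne).1 h4⟩

end Pool.Agent.Q227.SC
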