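import Pool.Agent.H601R2.PCG.KFun

/-!
# Clique graphs: multiplying vertices, and finite bases
-/

set_option autoImplicit false

namespace Pool.Agent.Q227.SC

open Pool.Agent.H601R2.PCG

/-- Replacing the vertices of a graph by (nonempty) sets of pairwise adjacent twins preserves the
existence of good families. -/
theorem good_blow {V V' : Type} {H : SimpleGraph V} {H' : SimpleGraph V'} {π : V' → V}
    (hs : Function.Surjective π)
    (hπ : ∀ a b, H'.Adj a b ↔ a ≠ b ∧ (π a = π b ∨ H.Adj (π a) (π b)))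
    (h : ∃ K, Good H K) : ∃ K, Good H' K := by
  classical
  obtain ⟨K, hK⟩ := h
  have hr : ∀ a b, H.Adj a b → b ∈ K a b := fun a b hab => by
    rw [hK.symm]
    exact hK.left b a hab.symm
  have hK1 : ∀ a b c : V', π a = π b → (c ∈ (fun a b => if π a = π b then π ⁻¹' {π a} else
      π ⁻¹' (K (π a) (π b)) : V' → V' → Set V') a b ↔ π c = π a) := by
    intro a b c hab
    simp [hab]
  have hK2 : ∀ a b c : V', π a ≠ π b → (c ∈ (fun a b => if π a = π b then π ⁻¹' {π a} else
      π ⁻¹' (K (π a) (π b)) : V' → V' → Set V') a b ↔ π c ∈ K (π a) (π b)) := by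
    intro a b c hab
    simp [hab]
  set K' : V' → V' → Set V' := fun a b => if π a = π b then π ⁻¹' {π a} else
      π ⁻¹' (K (π a) (π b)) with hK'
  have hadj : ∀ a b, H'.Adj a b → π a ≠ π b → H.Adj (π a) (π b) := by
    intro a b hab hne
    rcases ((hπ a b).1 hab).2 with h | h
    · exact absurd h hne
    · exact h
  refine ⟨K', ?_, ?_, ?_, ?_, ?_⟩
  · intro a b
    by_cases hab : π a = π b
    · simp [hK', hab]
    · simp [hK', hab, Ne.symm hab, hK.symm]
  · intro a b hab
    by_cases h : π a = π b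
    · exact (hK1 a b a h).2 rfl
    · exact (hK2 a b a h).2 (hK.left _ _ (hadj a b hab h))
  · intro a b hab x hx y hy hxy
    rw [hπ]
    refine ⟨hxy, ?_⟩
    by_cases h : π a = π b
    · rw [hK1 a b _ h] at hx hy
      exact Or.inl (hx.trans hy.symm)
    · rw [hK2 a b _ h] at hx hy
      by_cases h' : π x = π y
      · exact Or.inl h'
      · exact Or.inr (hK.complete _ _ (hadj a b hab h) hx hy h')
  · intro a b x y hab hx hy hxy z hz
    by_cases h : π a = π b
    · rw [hK1 a b _ h] at hx hy ⊢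
      rw [hK1 x y _ (hx.trans hy.symm)] at hz
      exact hz.trans hx
    · rw [hK2 a b _ h] at hx hy ⊢
      by_cases h' : π x = π y
      · rw [hK1 x y _ h'] at hz
        rw [hz]
        exact hx
      · rw [hK2 x y _ h'] at hz
        exact hK.mono _ _ _ _ (hadj a b hab h) hx hy h' hz
  · intro a b c hab hbc hac
    by_cases h1 : π a = π b
    · by_cases h2 : π b = π c
      · exact ⟨a, (hK1 a b a h1).2 rfl, (hK1 b c a h2).2 h1, (hK1 a c a (h1.trans h2)).2 rfl⟩
      · refine ⟨a, (hK1 a b a h1).2 rfl, (hK2 b c a h2).2 ?_, (hK2 a c a (h1 ▸ h2)).2 ?_⟩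
        · rw [h1]
          exact hK.left _ _ (hadj b c hbc h2)
        · exact hK.left _ _ (hadj a c hac (h1 ▸ h2))
    · by_cases h2 : π b = π c
      · refine ⟨b, (hK2 a b b h1).2 (hr _ _ (hadj a b hab h1)), (hK1 b c b h2).2 rfl,
          (hK2 a c b (h2 ▸ h1)).2 ?_⟩
        rw [h2]
        exact hr _ _ (hadj a c hac (h2 ▸ h1))
      · by_cases h3 : π a = π c
        · refine ⟨a, (hK2 a b a h1).2 (hK.left _ _ (hadj a b hab h1)), (hK2 b c a h2).2 ?_,
            (hK1 a c a h3).2 rfl⟩
          rw [h3]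
          exact hr _ _ (hadj b c hbc h2)
        · obtain ⟨v, hv1, hv2, hv3⟩ := hK.tri _ _ _ (hadj a b hab h1) (hadj b c hbc h2)
            (hadj a c hac h3)
          obtain ⟨v', rfl⟩ := hs v
          exact ⟨v', (hK2 a b v' h1).2 hv1, (hK2 b c v' h2).2 hv2, (hK2 a c v' h3).2 hv3⟩

/-- `s` enumerates the stable side of a split partition of `G`. -/
structure Sp {V : Type} {j : ℕ} (G : SimpleGraph V) (s : Fin j → V) : Prop where
  inj : Function.Injective s
  stable : ∀ i i', ¬ G.Adj (s i) (s i')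
  clique : ∀ x y, x ∉ Set.range s → y ∉ Set.range s → x ≠ y → G.Adj x y

/-- The type of a vertex: its neighbours in the stable side. -/
noncomputable def ty {V : Type} {j : ℕ} (G : SimpleGraph V) (s : Fin j → V) (x : V) :
    List.Vector Bool j := by
  classical exact List.Vector.ofFn fun i => decide (G.Adj x (s i))

theorem ty_get {V : Type} {j : ℕ} (G : SimpleGraph V) (s : Fin j → V) (x : V) (i : Fin j) :
    (ty G s x).get i = true ↔ G.Adj x (s i) := by
  classical
  simp [ty]

/-- The vertices of a given type outside the stable side. -/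
def cls {V : Type} {j : ℕ} (G : SimpleGraph V) (s : Fin j → V) (A : List.Vector Bool j) : Set V :=
  {x | x ∉ Set.range s ∧ ty G s x = A}

/-- The number of vertices of a given type outside the stable side. -/
noncomputable def cnt {V : Type} {j : ℕ} (G : SimpleGraph V) (s : Fin j → V)
    (A : List.Vector Bool j) : ℕ := (cls G s A).ncard

theorem exists_surj {X Y : Type} [Finite X] [Finite Y] {S : Set X} {T : Set Y}
    (h1 : T.ncard ≤ S.ncard) (h2 : T.ncard = 0 ↔ S.ncard = 0) :
    ∃ f : S → T, Function.Surjective f := by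
  classical
  by_cases h : T.ncard = 0
  · have h3 := h2.1 h
    rw [Set.ncard_eq_zero (Set.toFinite _)] at h h3
    subst h h3
    exact ⟨fun x => x.2.elim, fun y => y.2.elim⟩
  · have := Fintype.ofFinite S
    have := Fintype.ofFinite T
    have hc : Fintype.card T ≤ Fintype.card S := by
      rw [← Nat.card_eq_fintype_card, ← Nat.card_eq_fintype_card]
      exact h1
    obtain ⟨g⟩ := Function.Embedding.nonempty_of_card_le hc
    have hne : Nonempty T := by
      exact (Set.nonempty_of_ncard_ne_zero h).to_subtype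
    exact ⟨Function.invFun g, Function.invFun_surjective g.injective⟩

theorem good_of_le {V V' : Type} [Finite V] [Finite V'] {j : ℕ} {G : SimpleGraph V}
    {G' : SimpleGraph V'} {s : Fin j → V} {s' : Fin j → V'} (h : Sp G s) (h' : Sp G' s')
    (hc : ∀ A, cnt G' s' A ≤ cnt G s A ∧ (cnt G' s' A = 0 ↔ cnt G s A = 0))
    (hK : ∃ K, Good G' K) : ∃ K, Good G K := by
  classical
  have h1 : ∀ A, ∃ f : cls G s A → cls G' s' A, Function.Surjective f :=
    fun A => exists_surj (hc A).1 (hc A).2
  choose f hf using h1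
  set π : V → V' := fun x => if hx : ∃ i, s i = x then s' hx.choose else
    (f (ty G s x) ⟨x, hx, rfl⟩).1 with hπ
  have hs : ∀ i, π (s i) = s' i := by
    intro i
    have hx : ∃ i', s i' = s i := ⟨i, rfl⟩
    rw [hπ]
    simp only [dif_pos hx]
    congr 1
    exact h.inj hx.choose_spec
  have hn : ∀ A (x : cls G s A), π x.1 = (f A x).1 := by
    rintro A ⟨x, hx, rfl⟩
    rw [hπ]
    exact dif_neg hx
  have hn1 : ∀ x, x ∉ Set.range s → π x ∉ Set.range s' ∧ ty G' s' (π x) = ty G s x := by
    intro x hx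
    have := hn (ty G s x) ⟨x, hx, rfl⟩
    rw [this]
    exact (f (ty G s x) ⟨x, hx, rfl⟩).2
  refine good_blow (π := π) ?_ ?_ hK
  · intro y
    by_cases hy : y ∈ Set.range s'
    · obtain ⟨i, rfl⟩ := hy
      exact ⟨s i, hs i⟩
    · obtain ⟨x, hx⟩ := hf (ty G' s' y) ⟨y, hy, rfl⟩
      exact ⟨x.1, by rw [hn, hx]⟩
  · have key : ∀ (i : Fin j) (b : V), b ∉ Set.range s →
        (G.Adj b (s i) ↔ b ≠ s i ∧ (π b = π (s i) ∨ G'.Adj (π b) (π (s i)))) := by
      intro i b hb
      obtain ⟨h2, h3⟩ := hn1 b hb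
      rw [hs, ← ty_get, ← h3, ty_get]
      constructor
      · exact fun h4 => ⟨fun h5 => hb ⟨i, h5.symm⟩, Or.inr h4⟩
      · rintro ⟨_, h5 | h5⟩
        · exact absurd ⟨i, h5.symm⟩ h2
        · exact h5
    intro a b
    by_cases ha : a ∈ Set.range s
    · obtain ⟨i, rfl⟩ := ha
      by_cases hb : b ∈ Set.range s
      · obtain ⟨i', rfl⟩ := hb
        rw [hs, hs]
        refine iff_of_false (h.stable _ _) ?_
        rintro ⟨h2, h3 | h3⟩
        · exact h2 (congrArg s (h'.inj h3))
        · exact h'.stable _ _ h3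
      · rw [G.adj_comm, key i b hb, G'.adj_comm, ne_comm, eq_comm (a := π b)]
    · by_cases hb : b ∈ Set.range s
      · obtain ⟨i, rfl⟩ := hb
        exact key i a ha
      · obtain ⟨h2, _⟩ := hn1 a ha
        obtain ⟨h3, _⟩ := hn1 b hb
        constructor
        · intro hab
          refine ⟨hab.ne, ?_⟩
          by_cases h4 : π a = π b
          · exact Or.inl h4
          · exact Or.inr (h'.clique _ _ h2 h3 h4)
        · rintro ⟨h4, _⟩
          exact h.clique _ _ ha hb h4

/-- Dickson's lemma, for the order on vectors of natural numbers with equal supports. -/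
theorem dickson {ι : Type} [Finite ι] (U : Set (ι → ℕ)) : ∃ B : List (ι → ℕ), (∀ b ∈ B, b ∈ U) ∧
    ∀ c ∈ U, ∃ b ∈ B, ∀ i, b i ≤ c i ∧ (b i = 0 ↔ c i = 0) := by
  classical
  let f : (ι → ℕ) → (ι ⊕ ι → ℕ) := fun c =>
    Sum.elim c fun i => if c i = 0 then 1 else 0
  have hf : ∀ b c, f b ≤ f c → ∀ i, b i ≤ c i ∧ (b i = 0 ↔ c i = 0) := by
    intro b c h i
    have h1 : b i ≤ c i := h (Sum.inl i)
    have h2 : (if b i = 0 then 1 else 0) ≤ (if c i = 0 then 1 else 0) := h (Sum.inr i)
    refine ⟨h1, fun h3 => ?_, fun h3 => by omega⟩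
    by_contra h4
    rw [if_pos h3, if_neg h4] at h2
    omega
  have hfin : {m | Minimal (· ∈ f '' U) m}.Finite :=
    WellQuasiOrderedLE.finite_of_isAntichain (setOfPred_minimal_antichain _)
  have hch : ∀ m ∈ hfin.toFinset.toList, ∃ b ∈ U, f b = m := by
    intro m hm
    rw [Finset.mem_toList, Set.Finite.mem_toFinset] at hm
    exact hm.prop
  choose! g hg using hch
  refine ⟨hfin.toFinset.toList.map g, ?_, ?_⟩
  · intro b hb
    obtain ⟨m, hm, rfl⟩ := List.mem_map.1 hb
    exact (hg m hm).1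
  · intro c hc
    obtain ⟨m, hm, hmin⟩ := exists_minimal_le_of_wellFoundedLT (· ∈ f '' U) (f c) ⟨c, hc, rfl⟩
    have hm' : m ∈ hfin.toFinset.toList := by
      rw [Finset.mem_toList, Set.Finite.mem_toFinset]
      exact hmin
    exact ⟨g m, List.mem_map.2 ⟨m, hm', rfl⟩, hf _ _ (by rw [(hg m hm').2]; exact hm)⟩

/-- For split graphs with a stable side of size `j`, the clique graphs are determined by finitely
many vectors of multiplicities. -/
theorem basis (j : ℕ) : ∃ B : List (List.Vector Bool j → ℕ), ∀ (V : Type) [Finite V]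
    (G : SimpleGraph V) (s : Fin j → V), Sp G s → Nonempty V →
    (IsCliqueGraph G ↔ ∃ b ∈ B, ∀ A, b A ≤ cnt G s A ∧ (b A = 0 ↔ cnt G s A = 0)) := by
  obtain ⟨B, hB, hB'⟩ := dickson {c : List.Vector Bool j → ℕ | ∃ (V : Type) (_ : Finite V)
    (G : SimpleGraph V) (s : Fin j → V), Sp G s ∧ (∃ K, Good G K) ∧ c = cnt G s}
  refine ⟨B, fun V _ G s hs hne => ?_⟩
  rw [isCliqueGraph_iff]
  constructor
  · rintro ⟨_, h⟩
    exact hB' _ ⟨V, inferInstance, G, s, hs, h, rfl⟩
  · rintro ⟨b, hb, h⟩
    refine ⟨hne, ?_⟩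
    obtain ⟨V', _, G', s', hs', hK, rfl⟩ := hB b hb
    exact good_of_le hs hs' h hK

end Pool.Agent.Q227.SC
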